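import Pool.Agent.H987.Y.Fin

/-!
# An Anderson transition on the lattice with arbitrarily weak limit-periodic hopping

For every dimension `d ≠ 2`, every compact interval `[α, β]` in the interior of the spectrum of `-Δ` and every
`ε > 0` there is a `λ₀ > 0` such that for every iid potential with values in `[-1, 1]` there is a deterministic,
symmetric, nonnegative, limit-periodic hopping kernel `A` on the lattice `ℤ^d`, of norm at most `ε` and with
`sup_x ∑_y A(x, y)^p < ∞` for all `p > 0`, such that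

* for almost every disorder strength `λ` in `(0, λ₀)`, almost surely the spectrum of `-Δ + A + λ ω` in `[α, β]` is
  purely absolutely continuous and fills the interval;
* if the law of the potential has a bounded density, then for all large `λ`, almost surely all spectral
  measures of `-Δ + A + λ ω` are pure point.

Method: a tower of periodic networks on `ℤ^d` with period `N_k`; the network number `k + 1` is
locally covered, around most of its sites, by a tree of copies of the network number `k` with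
independent random phases (constructed from finite quotients of free products). On the trees the Green function
is controlled down to the real axis by the law of large numbers for the self-energy, in a fourth-moment
norm of the hyperbolic distance, averaged over the phases.
-/

set_option autoImplicit false

open scoped BigOperators
open MeasureTheory

namespace Pool.Agent.H987.Old.LatticeTransition

/-- the Hamiltonian `-Δ + A + λ ω` on the lattice `ℤ^d`:
`(H u)(x) = -∑_i (u(x + e_i) + u(x - e_i) - 2 u(x)) + ∑_y A(x, y) u(y) + λ ω(x) u(x)` -/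
noncomputable def H {d : ℕ} (A : (Fin d → ℤ) → (Fin d → ℤ) → ℝ) (lam : ℝ) (ω : (Fin d → ℤ) → ℝ)
    (u : (Fin d → ℤ) → ℂ) (x : Fin d → ℤ) : ℂ :=
  -∑ i : Fin d, ((u (x + Pi.single i 1) - u x) + (u (x - Pi.single i 1) - u x)) +
    ∑' y, ((A x y : ℝ) : ℂ) * u y + ((lam * ω x : ℝ) : ℂ) * u x

/-- a kernel on the lattice which is periodic (with period `N` in all directions) and has finite
range -/
def PeriodicFiniteRange {d : ℕ} (B : (Fin d → ℤ) → (Fin d → ℤ) → ℝ) : Prop :=
  ∃ N R : ℕ, 0 < N ∧ (∀ x y v, B (x + (N : ℤ) • v) (y + (N : ℤ) • v) = B x y) ∧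
    ∀ x y, B x y ≠ 0 → ∀ i, |x i - y i| ≤ R

/-- weak limit-periodic hopping: `A(x, y) = A(y, x) ≥ 0`, `∑_y A(x, y) ≤ ε`, the sums
`∑_y A(x, y)^p` are bounded for every `p > 0`, and `A` is a limit, in the norm
`sup_x ∑_y |·|`, of periodic kernels of finite range -/
structure WeakHopping {d : ℕ} (ε : ℝ) (A : (Fin d → ℤ) → (Fin d → ℤ) → ℝ) : Prop where
  nonneg : ∀ x y, 0 ≤ A x y
  symm : ∀ x y, A x y = A y x
  small : ∀ x, (Summable fun y => A x y) ∧ ∑' y, A x y ≤ ε
  moments : ∀ p : ℝ, 0 < p → ∃ S : ℝ, ∀ x, (Summable fun y => A x y ^ p) ∧ ∑' y, A x y ^ p ≤ S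
  limitPeriodic : ∀ δ : ℝ, 0 < δ → ∃ B : (Fin d → ℤ) → (Fin d → ℤ) → ℝ, PeriodicFiniteRange B ∧
    ∀ x, (Summable fun y => |A x y - B x y|) ∧ ∑' y, |A x y - B x y| ≤ δ

/-- square summable functions -/
def SqSummable {X : Type} (u : X → ℂ) : Prop := Summable fun x => ‖u x‖ ^ 2

/-- `m` is the spectral measure of the vector `f`: a finite measure whose Borel transform
`∫ (E - z)⁻¹ dm(E)` is `⟨f, (T - z)⁻¹ f⟩` for all non-real `z` -/
def IsSpectralMeasure {X : Type} (T : (X → ℂ) → X → ℂ) (f : X → ℂ) (m : Measure ℝ) : Prop :=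
  IsFiniteMeasure m ∧ ∀ z : ℂ, z.im ≠ 0 → ∃ u : X → ℂ, SqSummable u ∧
    (∀ x, T u x - z * u x = f x) ∧ ∫ E : ℝ, ((E : ℂ) - z)⁻¹ ∂m = ∑' x, (starRingEnd ℂ) (f x) * u x

open Classical in
/-- the unit vector at `p` -/
noncomputable def unit {X : Type} (p : X) (x : X) : ℂ := if x = p then 1 else 0

/-- every vector has a spectral measure, all spectral measures are absolutely continuous on
`[α, β]`, and those of the unit vectors are equivalent to the Lebesgue measure there -/
def PurelyAC {X : Type} (T : (X → ℂ) → X → ℂ) (α β : ℝ) : Prop :=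
  (∀ f : X → ℂ, SqSummable f → ∃ m : Measure ℝ, IsSpectralMeasure T f m) ∧
  (∀ (f : X → ℂ) (m : Measure ℝ), SqSummable f → IsSpectralMeasure T f m →
    ∀ E : Set ℝ, E ⊆ Set.Icc α β → volume E = 0 → m E = 0) ∧
  (∀ (x : X) (m : Measure ℝ), IsSpectralMeasure T (unit x) m →
    ∀ E : Set ℝ, E ⊆ Set.Icc α β → MeasurableSet E → m E = 0 → volume E = 0)

/-- every vector has a spectral measure, and all spectral measures are pure point -/
def PurePoint {X : Type} (T : (X → ℂ) → X → ℂ) : Prop :=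
  (∀ f : X → ℂ, SqSummable f → ∃ m : Measure ℝ, IsSpectralMeasure T f m) ∧
  ∀ (f : X → ℂ) (m : Measure ℝ), SqSummable f → IsSpectralMeasure T f m →
    ∃ E : Set ℝ, E.Countable ∧ m Eᶜ = 0

/-- **Theorem.** -/
theorem result (d : ℕ) (hd : 1 ≤ d) (hd2 : d ≠ 2) (α β : ℝ) (hα : 0 < α) (hαβ : α ≤ β) (hβ : β < 4 * d)
    (ε : ℝ) (hε : 0 < ε) :
    ∃ lam0 : ℝ, 0 < lam0 ∧ ∀ (μ : Measure ℝ) [IsProbabilityMeasure μ], (∀ᵐ s ∂μ, |s| ≤ 1) →
    ∃ A : (Fin d → ℤ) → (Fin d → ℤ) → ℝ, WeakHopping ε A ∧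
      (∀ᵐ lam ∂(volume.restrict (Set.Ioc 0 lam0)),
        ∀ᵐ ω ∂(Measure.infinitePi fun _ : Fin d → ℤ => μ), PurelyAC (H A lam ω) α β) ∧
      (∀ D : ℝ, 0 < D → (∀ E : Set ℝ, MeasurableSet E → μ E ≤ ENNReal.ofReal D * volume E) →
        ∃ lam1 : ℝ, 0 < lam1 ∧ ∀ lam : ℝ, lam1 ≤ lam →
          ∀ᵐ ω ∂(Measure.infinitePi fun _ : Fin d → ℤ => μ), PurePoint (H A lam ω)) := by
  obtain ⟨lam0, hl0, hl⟩ := Pool.Agent.H987.Y.fin_lattice d hd α β hα hαβ hβ
    (fun h => absurd h hd2) ε hε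
  refine ⟨lam0, hl0, fun μ _ hμ => ?_⟩
  obtain ⟨A, a1, a2, a3, a4, a5, a6, a7⟩ := hl μ hμ
  refine ⟨A, ⟨a1, a2, a3, a4, fun δ hδ => ?_⟩, ?_, a7⟩
  · obtain ⟨N, R, B, b1, b2, b3, b4⟩ := a5 δ hδ
    exact ⟨B, ⟨N, R, b1, b2, b3⟩, b4⟩
  · filter_upwards [a6] with lam h1
    filter_upwards [h1] with ω hω
    obtain ⟨c1, c2, c3⟩ := hω
    refine ⟨c1, c2, fun x m hm => c3 x m ?_⟩
    have h5 : (fun y => (Pool.Agent.Y662.TR.dv x :
        Pool.Agent.Y662.TR.LL (Fin d → ℤ)) y) = unit x := by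
      funext y
      rw [Pool.Agent.Y662.TR.dv_apply]
      rfl
    rw [h5]
    exact hm

end Pool.Agent.H987.Old.LatticeTransition
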